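import Mathlib

set_option autoImplicit false
set_option maxRecDepth 100000

/-!
# A cubic graph with 20 vertices that refutes the list total colouring conjecture

In every total colouring of the complete bipartite graph with parts of size two and three from a
palette of four colours, the two vertices of degree three have the same colour, and this colour is
the one missing at each of the three vertices of degree two.
-/

namespace Pool.Agent.TH440.LTC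

/-- `x` lies in the palette `{lo, lo+1, lo+2, lo+3}`. -/
def In (lo x : ℕ) : Prop := lo ≤ x ∧ x < lo + 4

/-- One vertex of degree two, when the two vertices of degree three have different colours. -/
theorem step_fin : ∀ x1 x2 e f y : Fin 4, x1 ≠ x2 → x1 ≠ e → x2 ≠ f → e ≠ f → y ≠ x1 → y ≠ x2 →
    y ≠ e → y ≠ f → e = x2 ∨ f = x1 := by
  decide +kernel

theorem gadget_fin {x1 x2 y1 y2 y3 e1 e2 e3 f1 f2 f3 : Fin 4}
    (h1 : x1 ≠ e1) (h2 : x1 ≠ e2) (h3 : x1 ≠ e3) (h4 : e1 ≠ e2) (h5 : e1 ≠ e3) (h6 : e2 ≠ e3)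
    (g1 : x2 ≠ f1) (g2 : x2 ≠ f2) (g3 : x2 ≠ f3) (g4 : f1 ≠ f2) (g5 : f1 ≠ f3) (g6 : f2 ≠ f3)
    (k1 : e1 ≠ f1) (k2 : e2 ≠ f2) (k3 : e3 ≠ f3)
    (p1 : y1 ≠ x1) (p2 : y1 ≠ x2) (p3 : y1 ≠ e1) (p4 : y1 ≠ f1)
    (q1 : y2 ≠ x1) (q2 : y2 ≠ x2) (q3 : y2 ≠ e2) (q4 : y2 ≠ f2)
    (r1 : y3 ≠ x1) (r2 : y3 ≠ x2) (r3 : y3 ≠ e3) (r4 : y3 ≠ f3) : x1 = x2 := by
  by_contra hx
  have s1 := step_fin x1 x2 e1 f1 y1 hx h1 g1 k1 p1 p2 p3 p4
  have s2 := step_fin x1 x2 e2 f2 y2 hx h2 g2 k2 q1 q2 q3 q4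
  have s3 := step_fin x1 x2 e3 f3 y3 hx h3 g3 k3 r1 r2 r3 r4
  rcases s1 with s1 | s1 <;> rcases s2 with s2 | s2 <;> rcases s3 with s3 | s3
  · exact h4 (s1.trans s2.symm)
  · exact h4 (s1.trans s2.symm)
  · exact h5 (s1.trans s3.symm)
  · exact g6 (s2.trans s3.symm)
  · exact h6 (s2.trans s3.symm)
  · exact g5 (s1.trans s3.symm)
  · exact g4 (s1.trans s2.symm)
  · exact g4 (s1.trans s2.symm)

theorem fourth_fin : ∀ x y e f z : Fin 4, y ≠ x → y ≠ e → y ≠ f → x ≠ e → x ≠ f → e ≠ f →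
    z ≠ y → z ≠ e → z ≠ f → z = x := by
  decide +kernel

/-- position of a colour in the palette -/
def ps (lo x : ℕ) : Fin 4 := ⟨(x - lo) % 4, Nat.mod_lt _ (by norm_num)⟩

theorem ps_ne {lo x y : ℕ} (hx : In lo x) (hy : In lo y) (h : x ≠ y) : ps lo x ≠ ps lo y := by
  obtain ⟨a, b⟩ := hx
  obtain ⟨c, d⟩ := hy
  intro h'
  have := congrArg Fin.val h'
  simp only [ps] at this
  omega

theorem ps_inj {lo x y : ℕ} (hx : In lo x) (hy : In lo y) (h : ps lo x = ps lo y) : x = y := by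
  by_contra h'
  exact ps_ne hx hy h' h

/-- The gadget with natural numbers as colours. -/
theorem gadget {lo x1 x2 y1 y2 y3 e1 e2 e3 f1 f2 f3 : ℕ}
    (ix1 : In lo x1) (ix2 : In lo x2) (iy1 : In lo y1) (iy2 : In lo y2) (iy3 : In lo y3)
    (ie1 : In lo e1) (ie2 : In lo e2) (ie3 : In lo e3)
    (if1 : In lo f1) (if2 : In lo f2) (if3 : In lo f3)
    (h1 : x1 ≠ e1) (h2 : x1 ≠ e2) (h3 : x1 ≠ e3) (h4 : e1 ≠ e2) (h5 : e1 ≠ e3) (h6 : e2 ≠ e3)
    (g1 : x2 ≠ f1) (g2 : x2 ≠ f2) (g3 : x2 ≠ f3) (g4 : f1 ≠ f2) (g5 : f1 ≠ f3) (g6 : f2 ≠ f3)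
    (k1 : e1 ≠ f1) (k2 : e2 ≠ f2) (k3 : e3 ≠ f3)
    (p1 : y1 ≠ x1) (p2 : y1 ≠ x2) (p3 : y1 ≠ e1) (p4 : y1 ≠ f1)
    (q1 : y2 ≠ x1) (q2 : y2 ≠ x2) (q3 : y2 ≠ e2) (q4 : y2 ≠ f2)
    (r1 : y3 ≠ x1) (r2 : y3 ≠ x2) (r3 : y3 ≠ e3) (r4 : y3 ≠ f3) :
    (∀ z, In lo z → z ≠ y1 → z ≠ e1 → z ≠ f1 → z = x1) ∧
    (∀ z, In lo z → z ≠ y2 → z ≠ e2 → z ≠ f2 → z = x1) ∧
    (∀ z, In lo z → z ≠ y3 → z ≠ e3 → z ≠ f3 → z = x1) := by
  have h : x1 = x2 := ps_inj ix1 ix2 (gadget_fin (ps_ne ix1 ie1 h1) (ps_ne ix1 ie2 h2)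
    (ps_ne ix1 ie3 h3) (ps_ne ie1 ie2 h4) (ps_ne ie1 ie3 h5) (ps_ne ie2 ie3 h6)
    (ps_ne ix2 if1 g1) (ps_ne ix2 if2 g2) (ps_ne ix2 if3 g3) (ps_ne if1 if2 g4)
    (ps_ne if1 if3 g5) (ps_ne if2 if3 g6) (ps_ne ie1 if1 k1) (ps_ne ie2 if2 k2)
    (ps_ne ie3 if3 k3) (ps_ne iy1 ix1 p1) (ps_ne iy1 ix2 p2) (ps_ne iy1 ie1 p3)
    (ps_ne iy1 if1 p4) (ps_ne iy2 ix1 q1) (ps_ne iy2 ix2 q2) (ps_ne iy2 ie2 q3)
    (ps_ne iy2 if2 q4) (ps_ne iy3 ix1 r1) (ps_ne iy3 ix2 r2) (ps_ne iy3 ie3 r3)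
    (ps_ne iy3 if3 r4))
  subst h
  refine ⟨?_, ?_, ?_⟩
  · intro z iz z1 z2 z3
    exact ps_inj iz ix1 (fourth_fin _ _ _ _ _ (ps_ne iy1 ix1 p1) (ps_ne iy1 ie1 p3)
      (ps_ne iy1 if1 p4) (ps_ne ix1 ie1 h1) (ps_ne ix1 if1 g1) (ps_ne ie1 if1 k1)
      (ps_ne iz iy1 z1) (ps_ne iz ie1 z2) (ps_ne iz if1 z3))
  · intro z iz z1 z2 z3
    exact ps_inj iz ix1 (fourth_fin _ _ _ _ _ (ps_ne iy2 ix1 q1) (ps_ne iy2 ie2 q3)
      (ps_ne iy2 if2 q4) (ps_ne ix1 ie2 h2) (ps_ne ix1 if2 g2) (ps_ne ie2 if2 k2)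
      (ps_ne iz iy2 z1) (ps_ne iz ie2 z2) (ps_ne iz if2 z3))
  · intro z iz z1 z2 z3
    exact ps_inj iz ix1 (fourth_fin _ _ _ _ _ (ps_ne iy3 ix1 r1) (ps_ne iy3 ie3 r3)
      (ps_ne iy3 if3 r4) (ps_ne ix1 ie3 h3) (ps_ne ix1 if3 g3) (ps_ne ie3 if3 k3)
      (ps_ne iz iy3 z1) (ps_ne iz ie3 z2) (ps_ne iz if3 z3))

/-! ## The graph -/

/-- Neighbours of every vertex together with the colour of the joining edge in a total colouring
with the four colours `0, 1, 2, 3`. Vertices `5 i, 5 i + 1` are the vertices of degree three of the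
`i`-th gadget and `5 i + 2, 5 i + 3, 5 i + 4` are its vertices of degree two. -/
def tab : List (List (ℕ × ℕ)) :=
  [
   [(2, 1), (3, 2), (4, 3)],
   [(2, 2), (3, 3), (4, 1)],
   [(0, 1), (1, 2), (7, 0)],
   [(0, 2), (1, 3), (13, 0)],
   [(0, 3), (1, 1), (14, 0)],
   [(7, 2), (8, 3), (9, 1)],
   [(7, 3), (8, 1), (9, 2)],
   [(5, 2), (6, 3), (2, 0)],
   [(5, 3), (6, 1), (18, 0)],
   [(5, 1), (6, 2), (19, 0)],
   [(12, 2), (13, 3), (14, 1)],
   [(12, 3), (13, 1), (14, 2)],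
   [(10, 2), (11, 3), (17, 0)],
   [(10, 3), (11, 1), (3, 0)],
   [(10, 1), (11, 2), (4, 0)],
   [(17, 3), (18, 1), (19, 2)],
   [(17, 1), (18, 2), (19, 3)],
   [(15, 3), (16, 1), (12, 0)],
   [(15, 1), (16, 2), (8, 0)],
   [(15, 2), (16, 3), (9, 0)]]

/-- colours of the vertices -/
def vtab : List ℕ := [0, 0, 3, 1, 2, 0, 0, 1, 2, 3, 0, 0, 1, 2, 3, 0, 0, 2, 3, 1]

def nbl (a : ℕ) : List (ℕ × ℕ) := tab.getD a []

def adjB (a b : ℕ) : Bool := (nbl a).any fun p => p.1 == b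

/-- edge colours -/
def cc (a b : ℕ) : ℕ := ((nbl a).find? fun p => p.1 == b).elim 0 Prod.snd

/-- vertex colours -/
def vv (a : ℕ) : ℕ := vtab.getD a 0

theorem symB : ∀ a b : Fin 20, adjB a b = true → adjB b a = true := by decide +kernel

theorem irrB : ∀ a : Fin 20, adjB a a = false := by decide +kernel

/-- The counterexample: a cubic graph with 20 vertices and 30 edges. -/
def G : SimpleGraph (Fin 20) where
  Adj a b := adjB a b = true
  symm := ⟨fun a b h => symB a b h⟩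
  loopless := ⟨fun a h => by rw [irrB a] at h; exact Bool.noConfusion h⟩

instance : DecidableRel G.Adj := fun a b => inferInstanceAs (Decidable (adjB a b = true))

theorem cc_symm : ∀ a b : Fin 20, cc a b = cc b a := by decide +kernel

theorem cc_lt : ∀ a b : Fin 20, cc a b < 4 := by decide +kernel

theorem vv_lt : ∀ a : Fin 20, vv a < 4 := by decide +kernel

theorem vv_proper : ∀ a b : Fin 20, G.Adj a b → vv a ≠ vv b := by decide +kernel

theorem vc_proper : ∀ a b : Fin 20, G.Adj a b → vv a ≠ cc a b := by decide +kernel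

theorem cc_proper : ∀ a b : Fin 20, G.Adj a b → ∀ d : Fin 20, G.Adj a d → b ≠ d →
    cc a b ≠ cc a d := by decide +kernel

/-- the colour of an edge -/
def ec (s : Sym2 (Fin 20)) : Fin 4 :=
  Sym2.lift ⟨fun a b : Fin 20 => (⟨cc a b, cc_lt a b⟩ : Fin 4), fun a b => by
    ext; exact cc_symm a b⟩ s

theorem ec_mk (a b : Fin 20) : ec s(a, b) = ⟨cc a b, cc_lt a b⟩ := rfl

/-- The lists of the edges. -/
def Le (a b : Fin 20) : Finset ℕ :=
  if a.val < 10 ∧ b.val < 10 then {0, 1, 2, 3}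
  else if 10 ≤ a.val ∧ 10 ≤ b.val then {4, 5, 6, 7}
  else if min a.val b.val = 3 then {0, 1, 4, 5}
  else if min a.val b.val = 4 then {0, 1, 6, 7}
  else if min a.val b.val = 8 then {2, 3, 4, 5}
  else {2, 3, 6, 7}

theorem Le_symm (a b : Fin 20) : Le a b = Le b a := by
  unfold Le
  rw [min_comm b.val a.val]
  by_cases h1 : a.val < 10 <;> by_cases h2 : b.val < 10 <;>
    simp [h1, h2, not_lt.mp, Nat.not_le.mpr]

/-- The lists. -/
def L (x : Fin 20 ⊕ G.edgeSet) : Finset ℕ :=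
  match x with
  | Sum.inl v => if v.val < 10 then {0, 1, 2, 3} else {4, 5, 6, 7}
  | Sum.inr e => Sym2.lift ⟨Le, Le_symm⟩ (e : Sym2 (Fin 20))

theorem L_card (x : Fin 20 ⊕ G.edgeSet) : 4 ≤ (L x).card := by
  rcases x with v | ⟨e, he⟩
  · simp only [L]
    split_ifs <;> simp
  · induction e using Sym2.ind with
    | _ a b =>
      simp only [L, Sym2.lift_mk]
      unfold Le
      split_ifs <;> simp

theorem L_low {a b : Fin 20} (ha : a.val < 10) (hb : b.val < 10) {x : ℕ} (h : x ∈ Le a b) :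
    In 0 x := by
  unfold Le at h
  rw [if_pos ⟨ha, hb⟩] at h
  simp at h
  unfold In
  omega

theorem L_high {a b : Fin 20} (ha : 10 ≤ a.val) (hb : 10 ≤ b.val) {x : ℕ} (h : x ∈ Le a b) :
    In 4 x := by
  unfold Le at h
  rw [if_neg (by omega), if_pos ⟨ha, hb⟩] at h
  simp at h
  unfold In
  omega

/-! ## The colouring with four colours -/

/-- The total colouring with four colours. -/
def c0 (x : Fin 20 ⊕ G.edgeSet) : Fin 4 :=
  match x with
  | Sum.inl v => ⟨vv v, vv_lt v⟩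
  | Sum.inr e => ec e

theorem c0_vertex (u v : Fin 20) (h : G.Adj u v) : c0 (Sum.inl u) ≠ c0 (Sum.inl v) := by
  intro h'
  exact vv_proper u v h (congrArg Fin.val h')

theorem c0_edge (e f : G.edgeSet) (hef : e ≠ f)
    (h : ∃ v : Fin 20, v ∈ (e : Sym2 (Fin 20)) ∧ v ∈ (f : Sym2 (Fin 20))) :
    c0 (Sum.inr e) ≠ c0 (Sum.inr f) := by
  obtain ⟨v, hve, hvf⟩ := h
  obtain ⟨e, he⟩ := e
  obtain ⟨f, hf⟩ := f
  obtain ⟨b, rfl⟩ := Sym2.mem_iff_exists.1 hve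
  obtain ⟨d, rfl⟩ := Sym2.mem_iff_exists.1 hvf
  intro h'
  have hbd : b ≠ d := by
    rintro rfl
    exact hef rfl
  exact cc_proper v b he d hf hbd (congrArg Fin.val h')

theorem c0_inc (v : Fin 20) (e : G.edgeSet) (hve : v ∈ (e : Sym2 (Fin 20))) :
    c0 (Sum.inl v) ≠ c0 (Sum.inr e) := by
  obtain ⟨e, he⟩ := e
  obtain ⟨b, rfl⟩ := Sym2.mem_iff_exists.1 hve
  intro h'
  exact vc_proper v b he (congrArg Fin.val h')

/-! ## No colouring from the lists -/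

/-- One gadget in the graph. -/
theorem block (c : Fin 20 ⊕ G.edgeSet → ℕ)
    (hv : ∀ u v : Fin 20, G.Adj u v → c (Sum.inl u) ≠ c (Sum.inl v))
    (he : ∀ e f : G.edgeSet, e ≠ f →
      (∃ v : Fin 20, v ∈ (e : Sym2 (Fin 20)) ∧ v ∈ (f : Sym2 (Fin 20))) →
        c (Sum.inr e) ≠ c (Sum.inr f))
    (hve : ∀ (v : Fin 20) (e : G.edgeSet), v ∈ (e : Sym2 (Fin 20)) →
      c (Sum.inl v) ≠ c (Sum.inr e))
    (lo : ℕ) (a1 a2 b1 b2 b3 : Fin 20)
    (A11 : G.Adj a1 b1) (A12 : G.Adj a1 b2) (A13 : G.Adj a1 b3)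
    (A21 : G.Adj a2 b1) (A22 : G.Adj a2 b2) (A23 : G.Adj a2 b3)
    (n12 : b1 ≠ b2) (n13 : b1 ≠ b3) (n23 : b2 ≠ b3) (na : a1 ≠ a2)
    (ia1 : In lo (c (Sum.inl a1))) (ia2 : In lo (c (Sum.inl a2)))
    (ib1 : In lo (c (Sum.inl b1))) (ib2 : In lo (c (Sum.inl b2))) (ib3 : In lo (c (Sum.inl b3)))
    (i11 : In lo (c (Sum.inr ⟨s(a1, b1), A11⟩))) (i12 : In lo (c (Sum.inr ⟨s(a1, b2), A12⟩)))
    (i13 : In lo (c (Sum.inr ⟨s(a1, b3), A13⟩))) (i21 : In lo (c (Sum.inr ⟨s(a2, b1), A21⟩)))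
    (i22 : In lo (c (Sum.inr ⟨s(a2, b2), A22⟩))) (i23 : In lo (c (Sum.inr ⟨s(a2, b3), A23⟩))) :
    ∀ (b w : Fin 20) (hbw : G.Adj b w), (b = b1 ∨ b = b2 ∨ b = b3) → w ≠ a1 → w ≠ a2 →
      In lo (c (Sum.inr ⟨s(b, w), hbw⟩)) → c (Sum.inr ⟨s(b, w), hbw⟩) = c (Sum.inl a1) := by
  have E : ∀ (x y z : Fin 20) (h1 : G.Adj x y) (h2 : G.Adj x z), y ≠ z →
      c (Sum.inr ⟨s(x, y), h1⟩) ≠ c (Sum.inr ⟨s(x, z), h2⟩) := by
    intro x y z h1 h2 hyz
    refine he _ _ ?_ ⟨x, Sym2.mem_mk_left x y, Sym2.mem_mk_left x z⟩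
    intro h
    have h' := congrArg Subtype.val h
    simp only [Sym2.eq_iff] at h'
    rcases h' with ⟨_, h'⟩ | ⟨h1', h2'⟩
    · exact hyz h'
    · exact hyz (h2'.trans h1')
  have F : ∀ (x y z : Fin 20) (h1 : G.Adj x y) (h2 : G.Adj z y), x ≠ z →
      c (Sum.inr ⟨s(x, y), h1⟩) ≠ c (Sum.inr ⟨s(z, y), h2⟩) := by
    intro x y z h1 h2 hyz
    refine he _ _ ?_ ⟨y, Sym2.mem_mk_right x y, Sym2.mem_mk_right z y⟩
    intro h
    have h' := congrArg Subtype.val h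
    simp only [Sym2.eq_iff] at h'
    rcases h' with ⟨h', _⟩ | ⟨h1', h2'⟩
    · exact hyz h'
    · exact hyz (h1'.trans h2')
  have K : ∀ (x y z : Fin 20) (h1 : G.Adj x y) (h2 : G.Adj z x), y ≠ z →
      c (Sum.inr ⟨s(x, y), h1⟩) ≠ c (Sum.inr ⟨s(z, x), h2⟩) := by
    intro x y z h1 h2 hyz
    refine he _ _ ?_ ⟨x, Sym2.mem_mk_left x y, Sym2.mem_mk_right z x⟩
    intro h
    have h' := congrArg Subtype.val h
    simp only [Sym2.eq_iff] at h'
    rcases h' with ⟨h1', h2'⟩ | ⟨_, h2'⟩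
    · exact h1.ne h2'.symm
    · exact hyz h2'
  have g := gadget (lo := lo) ia1 ia2 ib1 ib2 ib3 i11 i12 i13 i21 i22 i23
    (hve a1 ⟨s(a1, b1), A11⟩ (Sym2.mem_mk_left _ _))
    (hve a1 ⟨s(a1, b2), A12⟩ (Sym2.mem_mk_left _ _))
    (hve a1 ⟨s(a1, b3), A13⟩ (Sym2.mem_mk_left _ _))
    (E a1 b1 b2 A11 A12 n12) (E a1 b1 b3 A11 A13 n13) (E a1 b2 b3 A12 A13 n23)
    (hve a2 ⟨s(a2, b1), A21⟩ (Sym2.mem_mk_left _ _))
    (hve a2 ⟨s(a2, b2), A22⟩ (Sym2.mem_mk_left _ _))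
    (hve a2 ⟨s(a2, b3), A23⟩ (Sym2.mem_mk_left _ _))
    (E a2 b1 b2 A21 A22 n12) (E a2 b1 b3 A21 A23 n13) (E a2 b2 b3 A22 A23 n23)
    (F a1 b1 a2 A11 A21 na) (F a1 b2 a2 A12 A22 na) (F a1 b3 a2 A13 A23 na)
    (hv b1 a1 A11.symm) (hv b1 a2 A21.symm)
    (hve b1 ⟨s(a1, b1), A11⟩ (Sym2.mem_mk_right _ _))
    (hve b1 ⟨s(a2, b1), A21⟩ (Sym2.mem_mk_right _ _))
    (hv b2 a1 A12.symm) (hv b2 a2 A22.symm)
    (hve b2 ⟨s(a1, b2), A12⟩ (Sym2.mem_mk_right _ _))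
    (hve b2 ⟨s(a2, b2), A22⟩ (Sym2.mem_mk_right _ _))
    (hv b3 a1 A13.symm) (hv b3 a2 A23.symm)
    (hve b3 ⟨s(a1, b3), A13⟩ (Sym2.mem_mk_right _ _))
    (hve b3 ⟨s(a2, b3), A23⟩ (Sym2.mem_mk_right _ _))
  obtain ⟨g1, g2, g3⟩ := g
  intro b w hbw hb w1 w2 hin
  have hvb : c (Sum.inr ⟨s(b, w), hbw⟩) ≠ c (Sum.inl b) :=
    (hve b ⟨s(b, w), hbw⟩ (Sym2.mem_mk_left _ _)).symm
  rcases hb with rfl | rfl | rfl
  · exact g1 _ hin hvb (K _ _ _ hbw A11 w1) (K _ _ _ hbw A21 w2)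
  · exact g2 _ hin hvb (K _ _ _ hbw A12 w1) (K _ _ _ hbw A22 w2)
  · exact g3 _ hin hvb (K _ _ _ hbw A13 w1) (K _ _ _ hbw A23 w2)

theorem no_list_colouring (c : Fin 20 ⊕ G.edgeSet → ℕ)
    (hL : ∀ x, c x ∈ L x)
    (hv : ∀ u v : Fin 20, G.Adj u v → c (Sum.inl u) ≠ c (Sum.inl v))
    (he : ∀ e f : G.edgeSet, e ≠ f →
      (∃ v : Fin 20, v ∈ (e : Sym2 (Fin 20)) ∧ v ∈ (f : Sym2 (Fin 20))) →
        c (Sum.inr e) ≠ c (Sum.inr f))
    (hve : ∀ (v : Fin 20) (e : G.edgeSet), v ∈ (e : Sym2 (Fin 20)) →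
      c (Sum.inl v) ≠ c (Sum.inr e)) : False := by
  have vlo : ∀ v : Fin 20, v.val < 10 → In 0 (c (Sum.inl v)) := by
    intro v h
    have h1 := hL (Sum.inl v)
    simp only [L, if_pos h] at h1
    simp at h1
    unfold In
    omega
  have vhi : ∀ v : Fin 20, ¬ v.val < 10 → In 4 (c (Sum.inl v)) := by
    intro v h
    have h1 := hL (Sum.inl v)
    simp only [L, if_neg h] at h1
    simp at h1
    unfold In
    omega
  have eL : ∀ (a b : Fin 20) (h : G.Adj a b), c (Sum.inr ⟨s(a, b), h⟩) ∈ Le a b := by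
    intro a b h
    have h1 := hL (Sum.inr ⟨s(a, b), h⟩)
    simpa only [L, Sym2.lift_mk] using h1
  have elo : ∀ (a b : Fin 20) (h : G.Adj a b), a.val < 10 → b.val < 10 →
      In 0 (c (Sum.inr ⟨s(a, b), h⟩)) := fun a b h ha hb => L_low ha hb (eL a b h)
  have ehi : ∀ (a b : Fin 20) (h : G.Adj a b), 10 ≤ a.val → 10 ≤ b.val →
      In 4 (c (Sum.inr ⟨s(a, b), h⟩)) := fun a b h ha hb => L_high ha hb (eL a b h)
  have B0 := block c hv he hve 0 0 1 2 3 4 (by decide) (by decide) (by decide) (by decide)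
    (by decide) (by decide) (by decide) (by decide) (by decide) (by decide)
    (vlo _ (by decide)) (vlo _ (by decide)) (vlo _ (by decide)) (vlo _ (by decide))
    (vlo _ (by decide)) (elo _ _ _ (by decide) (by decide)) (elo _ _ _ (by decide) (by decide))
    (elo _ _ _ (by decide) (by decide)) (elo _ _ _ (by decide) (by decide))
    (elo _ _ _ (by decide) (by decide)) (elo _ _ _ (by decide) (by decide))
  have B1 := block c hv he hve 0 5 6 7 8 9 (by decide) (by decide) (by decide) (by decide)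
    (by decide) (by decide) (by decide) (by decide) (by decide) (by decide)
    (vlo _ (by decide)) (vlo _ (by decide)) (vlo _ (by decide)) (vlo _ (by decide))
    (vlo _ (by decide)) (elo _ _ _ (by decide) (by decide)) (elo _ _ _ (by decide) (by decide))
    (elo _ _ _ (by decide) (by decide)) (elo _ _ _ (by decide) (by decide))
    (elo _ _ _ (by decide) (by decide)) (elo _ _ _ (by decide) (by decide))
  have B2 := block c hv he hve 4 10 11 12 13 14 (by decide) (by decide) (by decide) (by decide)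
    (by decide) (by decide) (by decide) (by decide) (by decide) (by decide)
    (vhi _ (by decide)) (vhi _ (by decide)) (vhi _ (by decide)) (vhi _ (by decide))
    (vhi _ (by decide)) (ehi _ _ _ (by decide) (by decide)) (ehi _ _ _ (by decide) (by decide))
    (ehi _ _ _ (by decide) (by decide)) (ehi _ _ _ (by decide) (by decide))
    (ehi _ _ _ (by decide) (by decide)) (ehi _ _ _ (by decide) (by decide))
  have B3 := block c hv he hve 4 15 16 17 18 19 (by decide) (by decide) (by decide) (by decide)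
    (by decide) (by decide) (by decide) (by decide) (by decide) (by decide)
    (vhi _ (by decide)) (vhi _ (by decide)) (vhi _ (by decide)) (vhi _ (by decide))
    (vhi _ (by decide)) (ehi _ _ _ (by decide) (by decide)) (ehi _ _ _ (by decide) (by decide))
    (ehi _ _ _ (by decide) (by decide)) (ehi _ _ _ (by decide) (by decide))
    (ehi _ _ _ (by decide) (by decide)) (ehi _ _ _ (by decide) (by decide))
  have sw : ∀ (a b : Fin 20) (h : G.Adj a b) (h' : G.Adj b a),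
      c (Sum.inr ⟨s(a, b), h⟩) = c (Sum.inr ⟨s(b, a), h'⟩) := by
    intro a b h h'
    congr 2
    exact Subtype.ext Sym2.eq_swap
  have a27 : G.Adj 2 7 := by decide
  have a72 : G.Adj 7 2 := by decide
  have a1217 : G.Adj 12 17 := by decide
  have a1712 : G.Adj 17 12 := by decide
  have a3 : G.Adj 3 13 := by decide
  have a3' : G.Adj 13 3 := by decide
  have a4 : G.Adj 4 14 := by decide
  have a4' : G.Adj 14 4 := by decide
  have a8 : G.Adj 8 18 := by decide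
  have a8' : G.Adj 18 8 := by decide
  have a9 : G.Adj 9 19 := by decide
  have a9' : G.Adj 19 9 := by decide
  -- the two gadgets with the low palette have the same colour
  have l1 := B0 2 7 a27 (by decide) (by decide) (by decide) (elo _ _ _ (by decide) (by decide))
  have l2 := B1 7 2 a72 (by decide) (by decide) (by decide) (elo _ _ _ (by decide) (by decide))
  have l3 := sw 2 7 a27 a72
  have m1 := B2 12 17 a1217 (by decide) (by decide) (by decide)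
    (ehi _ _ _ (by decide) (by decide))
  have m2 := B3 17 12 a1712 (by decide) (by decide) (by decide)
    (ehi _ _ _ (by decide) (by decide))
  have m3 := sw 12 17 a1217 a1712
  -- the four joining edges
  have p3 := B0 3 13 a3 (by decide) (by decide) (by decide)
  have q3 := B2 13 3 a3' (by decide) (by decide) (by decide)
  have r3 := sw 3 13 a3 a3'
  have L3 : c (Sum.inr ⟨s(3, 13), a3⟩) ∈ ({0, 1, 4, 5} : Finset ℕ) := eL 3 13 a3
  have p4 := B0 4 14 a4 (by decide) (by decide) (by decide)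
  have q4 := B2 14 4 a4' (by decide) (by decide) (by decide)
  have r4 := sw 4 14 a4 a4'
  have L4 : c (Sum.inr ⟨s(4, 14), a4⟩) ∈ ({0, 1, 6, 7} : Finset ℕ) := eL 4 14 a4
  have p8 := B1 8 18 a8 (by decide) (by decide) (by decide)
  have q8 := B3 18 8 a8' (by decide) (by decide) (by decide)
  have r8 := sw 8 18 a8 a8'
  have L8 : c (Sum.inr ⟨s(8, 18), a8⟩) ∈ ({2, 3, 4, 5} : Finset ℕ) := eL 8 18 a8
  have p9 := B1 9 19 a9 (by decide) (by decide) (by decide)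
  have q9 := B3 19 9 a9' (by decide) (by decide) (by decide)
  have r9 := sw 9 19 a9 a9'
  have L9 : c (Sum.inr ⟨s(9, 19), a9⟩) ∈ ({2, 3, 6, 7} : Finset ℕ) := eL 9 19 a9
  simp only [Finset.mem_insert, Finset.mem_singleton] at L3 L4 L8 L9
  unfold In at p3 q3 p4 q4 p8 q8 p9 q9
  omega

end Pool.Agent.TH440.LTC
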